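import Pool.Agent.Helper40.WD.Stmts

/-!
# Row VOL of the sheet CAP: the Volterra operator is compact
-/

set_option autoImplicit false

namespace Pool.Agent.Helper96.WD

open Pool.Agent.Helper40.WD Filter Topology MeasureTheory

noncomputable def gg (c : ℝ) (v : CI) (s : ℝ) : ℝ :=
  Real.exp (c * s) * v (Set.projIcc 0 1 zero_le_one s)

theorem gg_cont (c : ℝ) (v : CI) : Continuous (gg c v) :=
  (Real.continuous_exp.comp (continuous_const.mul continuous_id)).mul
    (v.continuous.comp continuous_projIcc)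

theorem gg_int (c : ℝ) (v : CI) (a b : ℝ) : IntervalIntegrable (gg c v) volume a b :=
  (gg_cont c v).intervalIntegrable a b

noncomputable def vf (c : ℝ) (v : CI) : CI where
  toFun t := Real.exp (-(c * (t : ℝ))) * ∫ s in (0 : ℝ)..t, gg c v s
  continuous_toFun := by
    have h : Continuous (fun b : ℝ => ∫ s in (0 : ℝ)..b, gg c v s) :=
      intervalIntegral.continuous_primitive (fun a b => gg_int c v a b) 0
    have h1 : Continuous (fun t : Set.Icc (0 : ℝ) 1 => Real.exp (-(c * (t : ℝ)))) := by fun_prop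
    exact h1.mul (h.comp continuous_subtype_val)

noncomputable def vl (c : ℝ) : CI →ₗ[ℝ] CI where
  toFun := vf c
  map_add' v w := by
    ext t
    have h : ∫ s in (0 : ℝ)..t, gg c (v + w) s =
        (∫ s in (0 : ℝ)..t, gg c v s) + ∫ s in (0 : ℝ)..t, gg c w s := by
      rw [← intervalIntegral.integral_add (gg_int c v 0 t) (gg_int c w 0 t)]
      apply intervalIntegral.integral_congr
      intro s _
      simp only [gg, ContinuousMap.add_apply]
      ring
    show Real.exp (-(c * (t : ℝ))) * (∫ s in (0 : ℝ)..t, gg c (v + w) s) =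
      Real.exp (-(c * (t : ℝ))) * (∫ s in (0 : ℝ)..t, gg c v s) +
        Real.exp (-(c * (t : ℝ))) * ∫ s in (0 : ℝ)..t, gg c w s
    rw [h, mul_add]
  map_smul' r v := by
    ext t
    have h : ∫ s in (0 : ℝ)..t, gg c (r • v) s = r * ∫ s in (0 : ℝ)..t, gg c v s := by
      rw [← intervalIntegral.integral_const_mul]
      apply intervalIntegral.integral_congr
      intro s _
      simp only [gg, ContinuousMap.smul_apply, smul_eq_mul]
      ring
    show Real.exp (-(c * (t : ℝ))) * (∫ s in (0 : ℝ)..t, gg c (r • v) s) =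
      r * (Real.exp (-(c * (t : ℝ))) * ∫ s in (0 : ℝ)..t, gg c v s)
    rw [h]
    ring

theorem gg_le (c : ℝ) (v : CI) (s : ℝ) : |gg c v s| ≤ Real.exp (c * s) * ‖v‖ := by
  rw [gg, abs_mul, abs_of_pos (Real.exp_pos _)]
  exact mul_le_mul_of_nonneg_left (v.norm_coe_le_norm _) (Real.exp_pos _).le

theorem exp_int (c t : ℝ) (hc : 0 < c) :
    ∫ s in (0 : ℝ)..t, Real.exp (c * s) = (Real.exp (c * t) - 1) / c := by
  rw [intervalIntegral.integral_comp_mul_left (fun x => Real.exp x) hc.ne', integral_exp,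
    mul_zero, Real.exp_zero, smul_eq_mul]
  field_simp

theorem vl_bound (c : ℝ) (hc : 0 < c) (v : CI) : ‖vl c v‖ ≤ 1 / c * ‖v‖ := by
  rw [ContinuousMap.norm_le _ (by positivity)]
  intro t
  have ht0 : (0 : ℝ) ≤ t := t.2.1
  have h1 : |∫ s in (0 : ℝ)..t, gg c v s| ≤ ∫ s in (0 : ℝ)..t, Real.exp (c * s) * ‖v‖ := by
    rw [← Real.norm_eq_abs]
    apply intervalIntegral.norm_integral_le_of_norm_le ht0
    · exact Eventually.of_forall fun s _ => gg_le c v s
    · exact (Continuous.intervalIntegrable (by fun_prop) _ _)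
  rw [intervalIntegral.integral_mul_const, exp_int c t hc] at h1
  show |Real.exp (-(c * (t : ℝ))) * ∫ s in (0 : ℝ)..t, gg c v s| ≤ 1 / c * ‖v‖
  rw [abs_mul, abs_of_pos (Real.exp_pos _)]
  have h2 : Real.exp (-(c * (t : ℝ))) * ((Real.exp (c * t) - 1) / c * ‖v‖) =
      (1 - Real.exp (-(c * (t : ℝ)))) / c * ‖v‖ := by
    have h3 : Real.exp (-(c * (t : ℝ))) * Real.exp (c * t) = 1 := by
      rw [← Real.exp_add]; simp
    have h4 : Real.exp (-(c * (t : ℝ))) * ((Real.exp (c * t) - 1) / c * ‖v‖) =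
      (Real.exp (-(c * (t : ℝ))) * Real.exp (c * t) - Real.exp (-(c * (t : ℝ)))) / c * ‖v‖ := by
      ring
    rw [h4, h3]
  calc Real.exp (-(c * (t : ℝ))) * |∫ s in (0 : ℝ)..t, gg c v s|
      ≤ Real.exp (-(c * (t : ℝ))) * ((Real.exp (c * t) - 1) / c * ‖v‖) :=
        mul_le_mul_of_nonneg_left h1 (Real.exp_pos _).le
    _ = (1 - Real.exp (-(c * (t : ℝ)))) / c * ‖v‖ := h2
    _ ≤ 1 / c * ‖v‖ := by
        apply mul_le_mul_of_nonneg_right _ (norm_nonneg _)
        apply div_le_div_of_nonneg_right _ hc.le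
        linarith [Real.exp_pos (-(c * (t : ℝ)))]

theorem exp_lip (a b : ℝ) (ha : 0 ≤ a) (hb : 0 ≤ b) :
    |Real.exp (-a) - Real.exp (-b)| ≤ |a - b| := by
  wlog h : a ≤ b generalizing a b
  · have := this b a hb ha (le_of_not_ge h)
    rwa [abs_sub_comm, abs_sub_comm a b]
  · have h1 : Real.exp (-b) = Real.exp (-a) * Real.exp (-(b - a)) := by
      rw [← Real.exp_add]; congr 1; ring
    have h2 : 1 - (b - a) ≤ Real.exp (-(b - a)) := by
      have := Real.add_one_le_exp (-(b - a)); linarith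
    have h3 : Real.exp (-(b - a)) ≤ 1 := by
      rw [Real.exp_le_one_iff]; linarith
    have h4 : Real.exp (-a) ≤ 1 := by
      rw [Real.exp_le_one_iff]; linarith
    have h5 := Real.exp_pos (-a)
    rw [h1, abs_of_nonneg (by nlinarith), abs_of_nonpos (by linarith)]
    nlinarith

theorem vl_lip (c : ℝ) (hc : 0 < c) (v : CI) (hv : ‖v‖ ≤ 1) (x y : Set.Icc (0 : ℝ) 1) :
    |vl c v x - vl c v y| ≤ (Real.exp c + Real.exp c * c) * dist x y := by
  have hg : ∀ s ∈ Set.Icc (0 : ℝ) 1, |gg c v s| ≤ Real.exp c := by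
    intro s hs
    refine (gg_le c v s).trans ?_
    have h1 : Real.exp (c * s) ≤ Real.exp c := by
      rw [Real.exp_le_exp]; nlinarith [hs.2]
    calc Real.exp (c * s) * ‖v‖ ≤ Real.exp c * 1 :=
          mul_le_mul h1 hv (norm_nonneg _) (Real.exp_pos _).le
      _ = Real.exp c := mul_one _
  have hI : ∀ a ∈ Set.Icc (0 : ℝ) 1, ∀ b ∈ Set.Icc (0 : ℝ) 1,
      |∫ s in a..b, gg c v s| ≤ Real.exp c * |b - a| := by
    intro a ha b hb
    rw [← Real.norm_eq_abs]
    apply intervalIntegral.norm_integral_le_of_norm_le_const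
    intro s hs
    rw [Real.norm_eq_abs]
    apply hg
    rw [Set.mem_uIoc] at hs
    rcases hs with hs | hs
    · exact ⟨ha.1.trans hs.1.le, hs.2.trans hb.2⟩
    · exact ⟨hb.1.trans hs.1.le, hs.2.trans ha.2⟩
  have hd : dist x y = |(x : ℝ) - y| := rfl
  have h1 : (∫ s in (0 : ℝ)..x, gg c v s) - ∫ s in (0 : ℝ)..y, gg c v s =
      ∫ s in (y : ℝ)..x, gg c v s :=
    intervalIntegral.integral_interval_sub_left (gg_int c v 0 x) (gg_int c v 0 y)
  have h2 : vl c v x - vl c v y =
      Real.exp (-(c * (x : ℝ))) * (∫ s in (y : ℝ)..x, gg c v s) +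
        (Real.exp (-(c * (x : ℝ))) - Real.exp (-(c * (y : ℝ)))) *
          ∫ s in (0 : ℝ)..y, gg c v s := by
    rw [← h1]
    show Real.exp (-(c * (x : ℝ))) * (∫ s in (0 : ℝ)..x, gg c v s) -
      Real.exp (-(c * (y : ℝ))) * (∫ s in (0 : ℝ)..y, gg c v s) = _
    ring
  have h3 : Real.exp (-(c * (x : ℝ))) ≤ 1 := by
    rw [Real.exp_le_one_iff]; nlinarith [x.2.1, mul_nonneg hc.le x.2.1]
  have h4 := hI y y.2 x x.2
  have h5 := hI 0 ⟨le_refl _, zero_le_one⟩ y y.2
  have h6 : |∫ s in (0 : ℝ)..y, gg c v s| ≤ Real.exp c := by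
    refine h5.trans ?_
    rw [sub_zero, abs_of_nonneg y.2.1]
    nlinarith [y.2.2, Real.exp_pos c]
  have h7 : |Real.exp (-(c * (x : ℝ))) - Real.exp (-(c * (y : ℝ)))| ≤ c * |(x : ℝ) - y| := by
    refine (exp_lip _ _ (mul_nonneg hc.le x.2.1) (mul_nonneg hc.le y.2.1)).trans ?_
    rw [← mul_sub, abs_mul, abs_of_pos hc]
  rw [h2, hd]
  refine (abs_add_le _ _).trans ?_
  rw [abs_mul, abs_mul, abs_of_pos (Real.exp_pos _), add_mul]
  apply add_le_add
  · calc Real.exp (-(c * (x : ℝ))) * |∫ s in (y : ℝ)..x, gg c v s|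
        ≤ 1 * (Real.exp c * |(x : ℝ) - y|) :=
          mul_le_mul h3 h4 (abs_nonneg _) zero_le_one
      _ = Real.exp c * |(x : ℝ) - y| := one_mul _
  · calc |Real.exp (-(c * (x : ℝ))) - Real.exp (-(c * (y : ℝ)))| * |∫ s in (0 : ℝ)..y, gg c v s|
        ≤ (c * |(x : ℝ) - y|) * Real.exp c :=
          mul_le_mul h7 h6 (abs_nonneg _) (by positivity)
      _ = Real.exp c * c * |(x : ℝ) - y| := by ring

theorem st_VOL : ST_VOL := by
  intro c hc
  let P : CI →L[ℝ] CI := (vl c).mkContinuous (1 / c) (vl_bound c hc)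
  refine ⟨P, ?_, (vl c).mkContinuous_norm_le (by positivity) _, fun v t => rfl⟩
  let e : CI ≃ₗᵢ[ℝ] BoundedContinuousFunction (Set.Icc (0 : ℝ) 1) ℝ :=
    ContinuousMap.linearIsometryBoundedOfCompact (Set.Icc (0 : ℝ) 1) ℝ ℝ
  let A : Set (BoundedContinuousFunction (Set.Icc (0 : ℝ) 1) ℝ) :=
    (fun v : CI => e (P v)) '' Metric.closedBall 0 1
  have hA : IsCompact (closure A) := by
    apply BoundedContinuousFunction.arzela_ascoli (Metric.closedBall 0 (1 / c))
      (isCompact_closedBall _ _)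
    · rintro f x ⟨v, hv, rfl⟩
      rw [mem_closedBall_zero_iff] at hv ⊢
      have h1 : ‖P v x‖ ≤ ‖P v‖ := (P v).norm_coe_le_norm x
      have h2 : ‖P v‖ ≤ 1 / c * ‖v‖ := vl_bound c hc v
      have h3 : 1 / c * ‖v‖ ≤ 1 / c := by
        have : 0 < 1 / c := by positivity
        nlinarith
      exact h1.trans (h2.trans h3)
    · apply Metric.equicontinuous_of_continuity_modulus
        (fun r => (Real.exp c + Real.exp c * c) * r)
      · have : Tendsto (fun r : ℝ => (Real.exp c + Real.exp c * c) * r) (𝓝 0)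
            (𝓝 ((Real.exp c + Real.exp c * c) * 0)) := tendsto_id.const_mul _
        rwa [mul_zero] at this
      · rintro x y ⟨f, v, hv, rfl⟩
        rw [mem_closedBall_zero_iff] at hv
        exact vl_lip c hc v hv x y
  refine ⟨e.symm '' closure A, hA.image e.symm.continuous, ?_⟩
  apply Filter.mem_of_superset (Metric.closedBall_mem_nhds (0 : CI) one_pos)
  intro v hv
  exact ⟨e (P v), subset_closure ⟨v, hv, rfl⟩, e.symm_apply_apply _⟩

end Pool.Agent.Helper96.WD
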